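import Pool.Agent.Q81.JN.Stm

/-! Project JN (helper81), job JF: calculus of `M` and `J*`. -/

set_option autoImplicit false

namespace Pool.Agent.Q176.JN.F

open Pool.Agent.Q81.JN Set Filter Topology MeasureTheory

theorem one_sub_pos {A B : ℝ} (h : Par A B) {r : ℝ} (h0 : 0 ≤ r) (h1 : r ≤ 1) :
    0 < 1 - B * r := by
  have hB : B < 1 := lt_of_lt_of_le h.hAB h.hA
  rcases le_total 0 B with hb | hb
  · have := mul_le_mul_of_nonneg_left h1 hb
    linarith
  · have := mul_nonneg (neg_nonneg.2 hb) h0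
    linarith

/-- `m` is continuous wherever `1 - B r > 0` -/
theorem continuousAt_mm (A B : ℝ) {r : ℝ} (h : 0 < 1 - B * r) : ContinuousAt (mm A B) r := by
  by_cases hB : B = 0
  · have h1 : mm A B = fun x => Real.exp (-A * x) := by
      funext x
      simp [mm, hB]
    rw [h1]
    fun_prop
  · have h1 : mm A B = fun x => (1 - B * x) ^ ((A - B) / B) := by
      funext x
      simp [mm, hB]
    rw [h1]
    have h2 : ContinuousAt (fun x : ℝ => 1 - B * x) r := by fun_prop
    exact h2.rpow_const (Or.inl h.ne')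

theorem jf (hMF : S_MF) : S_JF := by
  intro A B h
  obtain ⟨ht, hm, hm0, -, hanti, -⟩ := hMF A B h
  have hpos : ∀ r ∈ Icc (0 : ℝ) 1, 0 < 1 - B * r := fun r hr => one_sub_pos h hr.1 hr.2
  have hcont : ContinuousOn (mm A B) (Icc 0 1) := fun r hr =>
    (continuousAt_mm A B (hpos r hr)).continuousWithinAt
  have hint : ∀ r ∈ Ico (0 : ℝ) 1, IntervalIntegrable (mm A B) volume 0 r := by
    intro r hr
    apply ContinuousOn.intervalIntegrable
    rw [uIcc_of_le hr.1]
    exact hcont.mono (Icc_subset_Icc_right hr.2.le)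
  have hopen : IsOpen {x : ℝ | 0 < 1 - B * x} := isOpen_lt continuous_const (by fun_prop)
  have hM : ∀ r ∈ Ico (0 : ℝ) 1, HasDerivAt (MM A B) (mm A B r) r := by
    intro r hr
    have h1 := hpos r ⟨hr.1, hr.2.le⟩
    exact intervalIntegral.integral_hasDerivAt_right (hint r hr)
      (ContinuousOn.stronglyMeasurableAtFilter hopen
        (fun x hx => (continuousAt_mm A B hx).continuousWithinAt) r h1)
      (continuousAt_mm A B h1)
  have hMl : ∀ r ∈ Ico (0 : ℝ) 1, r * mm A B r ≤ MM A B r := by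
    intro r hr
    have h1 : ∫ _ in (0 : ℝ)..r, mm A B r ≤ ∫ s in (0 : ℝ)..r, mm A B s := by
      apply intervalIntegral.integral_mono_on hr.1 _root_.intervalIntegrable_const (hint r hr)
      intro s hs
      exact hanti ⟨hs.1, hs.2.trans hr.2.le⟩ ⟨hr.1, hr.2.le⟩ hs.2
    rw [intervalIntegral.integral_const, sub_zero, smul_eq_mul] at h1
    exact h1
  have hMu : ∀ r ∈ Ico (0 : ℝ) 1, MM A B r ≤ r := by
    intro r hr
    have h1 : ∫ s in (0 : ℝ)..r, mm A B s ≤ ∫ _ in (0 : ℝ)..r, (1 : ℝ) := by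
      apply intervalIntegral.integral_mono_on hr.1 (hint r hr) _root_.intervalIntegrable_const
      intro s hs
      rw [← hm0]
      exact hanti ⟨le_refl 0, zero_le_one⟩ ⟨hs.1, hs.2.trans hr.2.le⟩ hs.1
    rw [intervalIntegral.integral_const, sub_zero, smul_eq_mul, mul_one] at h1
    exact h1
  have hJne : ∀ r : ℝ, r ≠ 0 → JS A B r = MM A B r / (r * mm A B r) := fun r hr => by
    simp [JS, hr]
  have hJ0 : JS A B 0 = 1 := by simp [JS]
  have hJl : ∀ r ∈ Ico (0 : ℝ) 1, 1 ≤ JS A B r := by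
    intro r hr
    rcases eq_or_lt_of_le hr.1 with h0 | h0
    · rw [← h0, hJ0]
    · have h1 : 0 < r * mm A B r := mul_pos h0 (hm r ⟨hr.1, hr.2.le⟩).1
      rw [hJne r h0.ne', one_le_div h1]
      exact hMl r hr
  have hJu : ∀ r ∈ Ico (0 : ℝ) 1, JS A B r ≤ 1 / mm A B r := by
    intro r hr
    have h2 := (hm r ⟨hr.1, hr.2.le⟩).1
    rcases eq_or_lt_of_le hr.1 with h0 | h0
    · rw [← h0, hJ0, hm0, div_one]
    · have h1 : 0 < r * mm A B r := mul_pos h0 h2
      rw [hJne r h0.ne', div_le_div_iff₀ h1 h2]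
      nlinarith [mul_le_mul_of_nonneg_right (hMu r hr) h2.le]
  have hJd : ∀ r ∈ Ioo (0 : ℝ) 1, HasDerivAt (JS A B) ((1 - tau A B r * JS A B r) / r) r := by
    intro r hr
    have hr' : r ∈ Ico (0 : ℝ) 1 := ⟨hr.1.le, hr.2⟩
    have hrI : r ∈ Icc (0 : ℝ) 1 := ⟨hr.1.le, hr.2.le⟩
    have h2 := (hm r hrI).1
    have h3 := (hm r hrI).2.2
    have h4 : r * mm A B r ≠ 0 := (mul_pos hr.1 h2).ne'
    have h5 : HasDerivAt (fun x => x * mm A B x)
        (1 * mm A B r + r * (-((A - B) / (1 - B * r)) * mm A B r)) r := (hasDerivAt_id r).mul h3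
    have h6 := (hM r hr').div h5 h4
    have h7 : JS A B =ᶠ[𝓝 r] fun x => MM A B x / (x * mm A B x) := by
      filter_upwards [lt_mem_nhds hr.1] with x hx
      exact hJne x (ne_of_gt hx)
    refine (h6.congr_of_eventuallyEq h7).congr_deriv ?_
    rw [hJne r hr.1.ne']
    have h8 := (ht r hr').2.2.2
    have h9 : tau A B r = 1 - r * ((A - B) / (1 - B * r)) := by linarith
    rw [h9]
    have h10 : r ≠ 0 := hr.1.ne'
    have h11 : mm A B r ≠ 0 := h2.ne'
    generalize (A - B) / (1 - B * r) = w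
    field_simp
    ring
  refine ⟨?_, fun r hr => ⟨hM r hr, hMl r hr, hJl r hr⟩, ?_, hJd⟩
  · unfold MM
    exact intervalIntegral.integral_same
  · intro r hr
    rcases eq_or_lt_of_le hr.1 with h0 | h0
    · subst h0
      have h1 : Tendsto (fun x => 1 / mm A B x) (𝓝[Ico 0 1] 0) (𝓝 1) := by
        have h2 : ContinuousAt (fun x => 1 / mm A B x) 0 :=
          continuousAt_const.div (continuousAt_mm A B (by simp)) (by rw [hm0]; exact one_ne_zero)
        have h3 := h2.tendsto
        rw [hm0, div_one] at h3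
        exact h3.mono_left nhdsWithin_le_nhds
      show Tendsto (JS A B) (𝓝[Ico 0 1] 0) (𝓝 (JS A B 0))
      rw [hJ0]
      exact tendsto_of_tendsto_of_tendsto_of_le_of_le' tendsto_const_nhds h1
        (eventually_nhdsWithin_of_forall hJl) (eventually_nhdsWithin_of_forall hJu)
    · exact (hJd r ⟨h0, hr.2⟩).continuousAt.continuousWithinAt

end Pool.Agent.Q176.JN.F
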