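import Pool.Agent.Q81.JN.Stm

/-! Project JN (helper81), job MF: calculus of `m` and `τ`. -/

set_option autoImplicit false

namespace Pool.Agent.Q176.JN

open Pool.Agent.Q81.JN Set

theorem one_sub_pos {A B : ℝ} (h : Par A B) {r : ℝ} (h0 : 0 ≤ r) (h1 : r ≤ 1) :
    0 < 1 - B * r := by
  have hB : B < 1 := lt_of_lt_of_le h.hAB h.hA
  rcases le_total 0 B with hb | hb
  · have := mul_le_mul_of_nonneg_left h1 hb
    linarith
  · have := mul_nonneg (neg_nonneg.2 hb) h0
    linarith

/-- the derivative of `m` wherever `1 - B r > 0` -/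
theorem hasDerivAt_mm (A B : ℝ) {r : ℝ} (h : 0 < 1 - B * r) :
    HasDerivAt (mm A B) (-((A - B) / (1 - B * r)) * mm A B r) r := by
  by_cases hB : B = 0
  · have h1 : mm A B = fun x => Real.exp (-A * x) := by
      funext x
      simp [mm, hB]
    rw [h1, hB]
    have h2 : HasDerivAt (fun x : ℝ => -A * x) (-A * 1) r := (hasDerivAt_id r).const_mul (-A)
    have h3 := h2.exp
    convert h3 using 1
    ring
  · have h1 : mm A B = fun x => (1 - B * x) ^ ((A - B) / B) := by
      funext x
      simp [mm, hB]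
    rw [h1]
    have h2 : HasDerivAt (fun x : ℝ => 1 - B * x) (-(B * 1)) r :=
      ((hasDerivAt_id r).const_mul B).const_sub 1
    have h3 := h2.rpow_const (p := (A - B) / B) (Or.inl h.ne')
    convert h3 using 1
    rw [Real.rpow_sub_one h.ne']
    field_simp

theorem mf : S_MF := by
  intro A B h
  have hpos : ∀ r ∈ Icc (0 : ℝ) 1, 0 < 1 - B * r := fun r hr => one_sub_pos h hr.1 hr.2
  have hm0 : mm A B 0 = 1 := by
    unfold mm
    split_ifs <;> simp
  have hm1 : mm A B 1 = delta A B := by
    unfold mm delta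
    split_ifs <;> simp
  have hmpos : ∀ r ∈ Icc (0 : ℝ) 1, 0 < mm A B r := by
    intro r hr
    unfold mm
    split_ifs
    · exact Real.exp_pos _
    · exact Real.rpow_pos_of_pos (hpos r hr) _
  have hanti : AntitoneOn (mm A B) (Icc 0 1) := by
    apply antitoneOn_of_deriv_nonpos (convex_Icc 0 1)
    · exact fun r hr => (hasDerivAt_mm A B (hpos r hr)).continuousAt.continuousWithinAt
    · intro r hr
      rw [interior_Icc] at hr
      exact (hasDerivAt_mm A B (hpos r ⟨hr.1.le, hr.2.le⟩)).differentiableAt.differentiableWithinAt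
    · intro r hr
      rw [interior_Icc] at hr
      have hr' : r ∈ Icc (0 : ℝ) 1 := ⟨hr.1.le, hr.2.le⟩
      rw [(hasDerivAt_mm A B (hpos r hr')).deriv]
      have h1 : 0 ≤ (A - B) / (1 - B * r) := div_nonneg (by linarith [h.hAB]) (hpos r hr').le
      have h2 := mul_nonneg h1 (hmpos r hr').le
      linarith
  refine ⟨?_, ?_, hm0, hm1, hanti, ?_⟩
  · intro r hr
    have h1 := hpos r ⟨hr.1, hr.2.le⟩
    have h2 : 0 < 1 - A * r := by
      have := mul_le_mul_of_nonneg_right h.hA hr.1
      have := hr.2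
      linarith
    refine ⟨h1, div_pos h2 h1, ?_, ?_⟩
    · unfold tau
      rw [div_le_one h1]
      have := mul_le_mul_of_nonneg_right h.hAB.le hr.1
      linarith
    · unfold tau
      rw [one_sub_div h1.ne', mul_div_assoc']
      congr 1
      ring
  · intro r hr
    refine ⟨hmpos r hr, ?_, hasDerivAt_mm A B (hpos r hr)⟩
    rw [← hm1]
    exact hanti hr ⟨zero_le_one, le_refl 1⟩ hr.2
  · rw [← hm1]
    exact hmpos 1 ⟨zero_le_one, le_refl 1⟩

end Pool.Agent.Q176.JN
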